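import Mathlib

/-!
# Club: the club filter on the countable subsets of a type

`∀ᶠ M in clubF K, Φ M` is read as: for club many countable `M ⊆ K`, `Φ M`. It replaces countable
elementary submodels. The filter is countably complete (`CountableInterFilter`), normal (`ev_normal`,
`ev_normalOn`), closed under functions, relations and countable valued functions through codes
(`ev_fun`, `ev_rel`, `ev_cset`), and every countable set is contained in a member (`exists_of_ev`).
A code is a function `c : X → K` which is injective on a set `A` of objects.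
-/

set_option autoImplicit false
universe u v w

namespace Pool.Agent.CSI

open Filter

variable {K : Type u}

/-- `M` is countable and closed under the set valued function `F` -/
def Cls (F : List K → Set K) (M : Set K) : Prop :=
  M.Countable ∧ ∀ l : List K, (∀ x ∈ l, x ∈ M) → F l ⊆ M

/-- the club filter on the countable subsets of `K` -/
def clubF (K : Type u) : Filter (Set K) where
  sets := {S | ∃ F : List K → Set K, (∀ l, (F l).Countable) ∧ ∀ M, Cls F M → M ∈ S}
  univ_sets := ⟨fun _ => ∅, fun _ => Set.countable_empty, fun _ _ => trivial⟩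
  sets_of_superset := by
    rintro S S' ⟨F, hF, h⟩ hS
    exact ⟨F, hF, fun M hM => hS (h M hM)⟩
  inter_sets := by
    rintro S S' ⟨F, hF, h⟩ ⟨F', hF', h'⟩
    refine ⟨fun l => F l ∪ F' l, fun l => (hF l).union (hF' l), fun M hM => ⟨h M ⟨hM.1, ?_⟩,
      h' M ⟨hM.1, ?_⟩⟩⟩
    · exact fun l hl => Set.subset_union_left.trans (hM.2 l hl)
    · exact fun l hl => Set.subset_union_right.trans (hM.2 l hl)

theorem ev_iff {Φ : Set K → Prop} : (∀ᶠ M in clubF K, Φ M) ↔
    ∃ F : List K → Set K, (∀ l, (F l).Countable) ∧ ∀ M, Cls F M → Φ M := Iff.rfl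

theorem ev_countable : ∀ᶠ M in clubF K, M.Countable :=
  ev_iff.2 ⟨fun _ => ∅, fun _ => Set.countable_empty, fun _ hM => hM.1⟩

theorem ev_sub {A : Set K} (hA : A.Countable) : ∀ᶠ M in clubF K, A ⊆ M :=
  ev_iff.2 ⟨fun _ => A, fun _ => hA, fun M hM => hM.2 [] (by simp)⟩

theorem ev_mem (k : K) : ∀ᶠ M in clubF K, k ∈ M := by
  filter_upwards [ev_sub (Set.countable_singleton k)] with M hM
  exact hM rfl

/-- normality: diagonal intersections -/
theorem ev_normal {Φ : K → Set K → Prop} (h : ∀ k, ∀ᶠ M in clubF K, Φ k M) :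
    ∀ᶠ M in clubF K, ∀ k ∈ M, Φ k M := by
  choose F hF hM using fun k => ev_iff.1 (h k)
  refine ev_iff.2 ⟨fun l => l.casesOn ∅ F, fun l => ?_, fun M hM' k hk => ?_⟩
  · cases l with
    | nil => exact Set.countable_empty
    | cons k l => exact hF k l
  · refine hM k M ⟨hM'.1, fun l hl => hM'.2 (k :: l) ?_⟩
    simpa using ⟨hk, hl⟩

instance : CountableInterFilter (clubF K) where
  countable_sInter_mem := by
    intro 𝒮 h𝒮 h
    choose! F hF hM using fun S (hS : S ∈ 𝒮) => ev_iff.1 (h S hS)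
    refine ev_iff.2 ⟨fun l => ⋃ S ∈ 𝒮, F S l, fun l => ?_, fun M hM' S hS => ?_⟩
    · exact h𝒮.biUnion fun S hS => hF S hS l
    · exact hM S hS M ⟨hM'.1, fun l hl =>
        (Set.subset_biUnion_of_mem (u := fun S => F S l) hS).trans (hM'.2 l hl)⟩

/-- the closure of `A` under `F` in `ω` steps -/
def hullSeq (F : List K → Set K) (A : Set K) : ℕ → Set K
  | 0 => A
  | n + 1 => hullSeq F A n ∪ ⋃ l ∈ {l : List K | ∀ x ∈ l, x ∈ hullSeq F A n}, F l

/-- every countable set is contained in a member -/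
theorem exists_of_ev {Φ : Set K → Prop} (h : ∀ᶠ M in clubF K, Φ M) {A : Set K}
    (hA : A.Countable) : ∃ M : Set K, A ⊆ M ∧ M.Countable ∧ Φ M := by
  obtain ⟨F, hF, hM⟩ := ev_iff.1 h
  obtain ⟨N, hN0, hN⟩ : ∃ N : ℕ → Set K, N 0 = A ∧
      ∀ n, N (n + 1) = N n ∪ ⋃ l ∈ {l : List K | ∀ x ∈ l, x ∈ N n}, F l :=
    ⟨hullSeq F A, rfl, fun n => rfl⟩
  have hc : ∀ n, (N n).Countable := by
    intro n
    induction n with
    | zero => rw [hN0]; exact hA
    | succ n ih =>
      rw [hN]
      refine ih.union (Set.Countable.biUnion ?_ fun l _ => hF l)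
      have hcn : Countable {x // x ∈ N n} := ih.to_subtype
      have hcl : Countable (List {x // x ∈ N n}) := List.countable
      have hr : {l : List K | ∀ x ∈ l, x ∈ N n} = Set.range (List.map (Subtype.val : {x // x ∈ N n} → K)) := by
        ext l
        constructor
        · intro hl
          refine ⟨l.pmap (fun x hx => ⟨x, hx⟩) hl, ?_⟩
          rw [List.map_pmap]
          simp
        · rintro ⟨l', rfl⟩ x hx
          obtain ⟨y, _, rfl⟩ := List.mem_map.1 hx
          exact y.2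
      rw [hr]
      exact Set.countable_range _
  have hm : ∀ n m, n ≤ m → N n ⊆ N m := by
    intro n m h
    induction h with
    | refl => exact subset_rfl
    | step _ ih => exact ih.trans (by rw [hN]; exact Set.subset_union_left)
  have hU : (⋃ n, N n).Countable := Set.countable_iUnion hc
  refine ⟨⋃ n, N n, hN0 ▸ Set.subset_iUnion N 0, hU, hM _ ⟨hU, fun l hl => ?_⟩⟩
  have : ∃ n, ∀ x ∈ l, x ∈ N n := by
    induction l with
    | nil => exact ⟨0, by simp⟩
    | cons a l ih =>
      obtain ⟨n, hn⟩ := ih fun x hx => hl x (List.mem_cons_of_mem _ hx)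
      obtain ⟨m, hm'⟩ := Set.mem_iUnion.1 (hl a List.mem_cons_self)
      refine ⟨max n m, fun x hx => ?_⟩
      rcases List.mem_cons.1 hx with rfl | hx
      · exact hm _ _ (le_max_right _ _) hm'
      · exact hm _ _ (le_max_left _ _) (hn x hx)
  obtain ⟨n, hn⟩ := this
  refine Set.Subset.trans ?_ (Set.subset_iUnion N (n + 1))
  rw [hN]
  exact (Set.subset_biUnion_of_mem (u := fun l => F l)
    (show l ∈ {l : List K | ∀ x ∈ l, x ∈ N n} from hn)).trans Set.subset_union_right

instance : (clubF K).NeBot := by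
  rw [neBot_iff]
  intro h
  have : ∀ᶠ M in clubF K, False := by rw [h]; exact eventually_bot
  obtain ⟨M, _, _, hM⟩ := exists_of_ev this (A := ∅) Set.countable_empty
  exact hM

section codes
variable {X : Type v} {Y : Type w}

theorem ev_normalOn {A : Set X} {c : X → K} (hc : Set.InjOn c A) {Φ : X → Set K → Prop}
    (h : ∀ x ∈ A, ∀ᶠ M in clubF K, Φ x M) :
    ∀ᶠ M in clubF K, ∀ x ∈ A, c x ∈ M → Φ x M := by
  have h' : ∀ k, ∀ᶠ M in clubF K, ∀ x ∈ A, c x = k → Φ x M := by
    intro k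
    by_cases hk : ∃ x ∈ A, c x = k
    · obtain ⟨x, hx, rfl⟩ := hk
      filter_upwards [h x hx] with M hM y hy hyx
      rw [hc hy hx hyx]
      exact hM
    · filter_upwards with M x hx hxk
      exact absurd ⟨x, hx, hxk⟩ hk
  filter_upwards [ev_normal h'] with M hM x hx hxM
  exact hM (c x) hxM x hx rfl

theorem ev_fun {A : Set X} {c : X → K} (hc : Set.InjOn c A) (d : Y → K) (f : X → Y) :
    ∀ᶠ M in clubF K, ∀ x ∈ A, c x ∈ M → d (f x) ∈ M :=
  ev_normalOn hc fun x _ => ev_mem (d (f x))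

theorem ev_cset {A : Set X} {c : X → K} (hc : Set.InjOn c A) (d : Y → K) (F : X → Set Y)
    (hF : ∀ x ∈ A, (F x).Countable) :
    ∀ᶠ M in clubF K, ∀ x ∈ A, c x ∈ M → ∀ y ∈ F x, d y ∈ M := by
  refine ev_normalOn hc fun x hx => ?_
  filter_upwards [ev_sub ((hF x hx).image d)] with M hM y hy
  exact hM ⟨y, hy, rfl⟩

/-- witnesses can be found in `M` -/
theorem ev_rel {A : Set X} {c : X → K} (hc : Set.InjOn c A) (d : Y → K) (R : X → Y → Prop) :
    ∀ᶠ M in clubF K, ∀ x ∈ A, c x ∈ M → (∃ y, R x y) → ∃ y, R x y ∧ d y ∈ M := by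
  refine ev_normalOn hc fun x _ => ?_
  by_cases h : ∃ y, R x y
  · obtain ⟨y, hy⟩ := h
    filter_upwards [ev_mem (d y)] with M hM _
    exact ⟨y, hy, hM⟩
  · filter_upwards with M hM
    exact absurd hM h

end codes

/-- transfer along an injection -/
theorem ev_preimage {K' : Type v} {e : K' → K} (he : Function.Injective e) {Φ : Set K' → Prop}
    (h : ∀ᶠ M in clubF K', Φ M) : ∀ᶠ M in clubF K, Φ (e ⁻¹' M) := by
  obtain ⟨F, hF, hM⟩ := ev_iff.1 h
  refine ev_iff.2 ⟨fun l => ⋃ l' ∈ {l' : List K' | l'.map e = l}, e '' F l', fun l => ?_,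
    fun M hM' => ?_⟩
  · refine Set.Countable.biUnion ?_ fun l' _ => (hF l').image e
    refine Set.Subsingleton.countable fun l₁ h₁ l₂ h₂ => ?_
    exact List.map_injective_iff.2 he (h₁.trans h₂.symm)
  · refine hM _ ⟨hM'.1.preimage he, fun l hl x hx => ?_⟩
    refine hM'.2 (l.map e) ?_ (Set.mem_biUnion (show l ∈ {l' : List K' | l'.map e = l.map e} from rfl)
      ⟨x, hx, rfl⟩)
    intro y hy
    obtain ⟨z, hz, rfl⟩ := List.mem_map.1 hy
    exact hl z hz

/-- the trace of `M` on a well order of type `ω₁` is a proper initial segment of limit type -/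
theorem ev_delta {Ω : Type v} [LinearOrder Ω] [WellFoundedLT Ω]
    (hI : ∀ ξ : Ω, (Set.Iio ξ).Countable) (hU : ¬ (Set.univ : Set Ω).Countable)
    {c : Ω → K} (hc : Function.Injective c) :
    ∀ᶠ M in clubF K, ∃ δ : Ω, (∀ ξ, c ξ ∈ M ↔ ξ < δ) ∧ (∀ ξ < δ, ∃ η, ξ < η ∧ η < δ) ∧
      ∃ ξ, ξ < δ := by
  have hs : ∀ ξ : Ω, ∃ η, ξ < η := by
    intro ξ
    by_contra h
    have h : ∀ η, η ≤ ξ := fun η => not_lt.1 fun hη => h ⟨η, hη⟩
    refine hU (((hI ξ).union (Set.countable_singleton ξ)).mono fun η _ => ?_)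
    rcases lt_or_eq_of_le (h η) with h | h
    · exact Or.inl h
    · exact Or.inr h
  have hne : Nonempty Ω := by
    by_contra h
    rw [not_nonempty_iff] at h
    exact hU (Set.countable_univ_iff.2 inferInstance)
  obtain ⟨ξ₀⟩ := hne
  filter_upwards [ev_countable, ev_mem (c ξ₀),
    ev_cset (A := Set.univ) hc.injOn c (fun ξ => Set.Iio ξ) (fun ξ _ => hI ξ),
    ev_rel (A := Set.univ) hc.injOn c (fun ξ η : Ω => ξ < η)] with M h1 h2 h3 h4
  have hx : ∃ δ : Ω, c δ ∉ M := by
    by_contra h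
    refine hU ((h1.preimage hc).mono fun ξ _ => ?_)
    by_contra hξ
    exact h ⟨ξ, hξ⟩
  have hmin := WellFounded.min_mem (wellFounded_lt : WellFounded ((· < ·) : Ω → Ω → Prop))
    {δ : Ω | c δ ∉ M} hx
  set δ := WellFounded.min (wellFounded_lt : WellFounded ((· < ·) : Ω → Ω → Prop))
    {δ : Ω | c δ ∉ M} hx with hδ
  have hlt : ∀ ξ, c ξ ∈ M ↔ ξ < δ := by
    intro ξ
    constructor
    · intro hξ
      by_contra hle
      rcases eq_or_lt_of_le (not_lt.1 hle) with h | h
      · exact hmin (by rw [h]; exact hξ)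
      · exact hmin (h3 ξ trivial hξ δ h)
    · intro hξ
      by_contra hn
      exact WellFounded.not_lt_min (wellFounded_lt : WellFounded ((· < ·) : Ω → Ω → Prop))
        {δ : Ω | c δ ∉ M} hn hξ
  refine ⟨δ, hlt, fun ξ hξ => ?_, ξ₀, (hlt ξ₀).1 h2⟩
  obtain ⟨η, hη, hη'⟩ := h4 ξ trivial ((hlt ξ).2 hξ) (hs ξ)
  exact ⟨η, hη, (hlt η).1 hη'⟩

end Pool.Agent.CSI
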