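import Mathlib

/-!
# Countable support iterations: definitions

`K` is a well-ordered set with a smallest and a largest element; `κ = #K` is inaccessible in all applications. The
elements of `K` are the LEVELS, the elements `< ⊤` are the STAGES. `Z` is a type of ground elements, `one : Z`.

A raw condition is a function `p : K → K`; `⊥` is the trivial code. At the stage `γ` a code `c` stands for a name of
an element of the `γ`-th iterand: `dec c g z` says that `g` decides the name to be `z : Z`. The iterand at `γ` is
given by the user as a relation `R g z z'` (`g` forces `z ≤ z'`; `R g z z` says that `g` forces `z` to be an element).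

`CP st α` is the set of the conditions with countable support below the level `α`, `cle st α` is the order of the
level `α` (on ALL conditions: only the coordinates below `α` are compared).
-/

set_option autoImplicit false
universe u

namespace Pool.Agent.CSI

open Cardinal Set

/-- raw conditions -/
abbrev Raw (K : Type u) : Type u := K → K

/-- what the recursion produces at a stage: the set of valid codes, the decoding, the order of the codes -/
structure St (K Z : Type u) where
  Cd : Set K
  dec : K → Raw K → Z → Prop
  Rc : Raw K → K → K → Prop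

section
variable {K Z : Type u} [LinearOrder K] [OrderBot K]

open Classical in
/-- restriction to the coordinates below `α` -/
noncomputable def rs (α : K) (p : Raw K) : Raw K := fun γ => if γ < α then p γ else ⊥

open Classical in
/-- `g` below `α`, `p` from `α` on -/
noncomputable def gl (α : K) (g p : Raw K) : Raw K := fun γ => if γ < α then g γ else p γ

/-- the conditions with (countable) support below `α` -/
def CP (st : K → St K Z) (α : K) : Set (Raw K) :=
  {p | {γ | p γ ≠ ⊥}.Countable ∧ (∀ γ < α, p γ ∈ (st γ).Cd) ∧ ∀ γ, α ≤ γ → p γ = ⊥}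

/-- the order of the level `α`: `p` is stronger than `q` -/
def cle (st : K → St K Z) (α : K) (p q : Raw K) : Prop :=
  ∀ γ < α, (st γ).Rc (rs γ p) (p γ) (q γ)

/-- names of elements of the iterand `R` over the preorder `(P, le)`: `n g z` says that `g` decides the name
to be `z` -/
structure Nm (P : Set (Raw K)) (le : Raw K → Raw K → Prop) (R : Raw K → Z → Z → Prop)
    (n : Raw K → Z → Prop) : Prop where
  val : ∀ g z, n g z → g ∈ P ∧ R g z z
  opn : ∀ g h z, n g z → h ∈ P → le h g → n h z
  fnc : ∀ g z z', n g z → n g z' → z = z'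
  dns : ∀ g ∈ P, ∃ h ∈ P, le h g ∧ ∃ z, n h z

variable [OrderTop K]

/-- `x` is a coding of all names by a bounded set of elements of `K`; `⊥` is the code of the constant name `one` -/
structure Cdg (P : Set (Raw K)) (le : Raw K → Raw K → Prop) (R : Raw K → Z → Z → Prop) (one : Z)
    (x : Set K × (K → Raw K → Z → Prop)) : Prop where
  nm : ∀ c ∈ x.1, Nm P le R (x.2 c)
  srj : ∀ n, Nm P le R n → ∃ c ∈ x.1, x.2 c = n
  bot : ⊥ ∈ x.1
  dbot : x.2 ⊥ = fun g z => g ∈ P ∧ z = one
  bd : ∃ b < ⊤, ∀ c ∈ x.1, c < b

open Classical in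
/-- some coding, if there is one -/
noncomputable def cdg (P : Set (Raw K)) (le : Raw K → Raw K → Prop) (R : Raw K → Z → Z → Prop) (one : Z) :
    Set K × (K → Raw K → Z → Prop) :=
  if h : ∃ x, Cdg P le R one x then h.choose else ({⊥}, fun _ g z => g ∈ P ∧ z = one)

/-- the order of the codes: `g` forces that the value of `c` is stronger than the value of `c'` -/
def Rcd (P : Set (Raw K)) (le : Raw K → Raw K → Prop) (R : Raw K → Z → Z → Prop) (dec : K → Raw K → Z → Prop)
    (g : Raw K) (c c' : K) : Prop :=
  g ∈ P ∧ ∀ h ∈ P, le h g → ∃ k ∈ P, le k h ∧ ∃ z z', dec c k z ∧ dec c' k z' ∧ R k z z'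

/-- one step of the recursion -/
noncomputable def mkSt (one : Z) (Rf : K → (K → St K Z) → Raw K → Z → Z → Prop) (γ : K) (st : K → St K Z) :
    St K Z where
  Cd := (cdg (CP st γ) (cle st γ) (Rf γ st) one).1
  dec := (cdg (CP st γ) (cle st γ) (Rf γ st) one).2
  Rc := Rcd (CP st γ) (cle st γ) (Rf γ st) (cdg (CP st γ) (cle st γ) (Rf γ st) one).2

variable [WellFoundedLT K]

open Classical in
/-- the iteration: `Rf γ st` is the iterand at the stage `γ`, it may depend on the recursion data `st` below `γ` -/
noncomputable def itr (one : Z) (Rf : K → (K → St K Z) → Raw K → Z → Z → Prop) : K → St K Z :=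
  (wellFounded_lt : WellFounded ((· < ·) : K → K → Prop)).fix
    (fun γ ih => mkSt one Rf γ (fun β => if h : β < γ then ih β h else ⟨∅, fun _ _ _ => False, fun _ _ _ => False⟩))

/-- locality: the iterand at `γ` depends only on the data below `γ` -/
def Loc (Rf : K → (K → St K Z) → Raw K → Z → Z → Prop) : Prop :=
  ∀ (γ : K) (st st' : K → St K Z), (∀ β < γ, st β = st' β) → Rf γ st = Rf γ st'

omit [OrderTop K] [WellFoundedLT K] in
/-- what is required from an iterand over `(P, le)` -/
structure POk (P : Set (Raw K)) (le : Raw K → Raw K → Prop) (R : Raw K → Z → Z → Prop) (one : Z) : Prop where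
  mono : ∀ g ∈ P, ∀ h ∈ P, le h g → ∀ a b, R g a b → R h a b
  trans : ∀ g ∈ P, ∀ a b c, R g a b → R g b c → R g a c
  top : ∀ g ∈ P, ∀ a, R g a a → R g a one
  one : ∀ g ∈ P, R g one one

/-- everything is all right at the stage `γ` of a system `st` -/
structure OkAt (one : Z) (Rf : K → (K → St K Z) → Raw K → Z → Z → Prop) (st : K → St K Z) (γ : K) : Prop where
  pok : POk (CP st γ) (cle st γ) (Rf γ st) one
  sml : #{z : Z | ∃ g ∈ CP st γ, Rf γ st g z z} < #K
  cdg : Cdg (CP st γ) (cle st γ) (Rf γ st) one ((st γ).Cd, (st γ).dec)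
  rc : (st γ).Rc = Rcd (CP st γ) (cle st γ) (Rf γ st) (st γ).dec

/-- the hypotheses on the user's iterands -/
structure Adm (one : Z) (Rf : K → (K → St K Z) → Raw K → Z → Z → Prop) : Prop where
  loc : Loc Rf
  ok : ∀ γ < ⊤, (∀ β < γ, OkAt one Rf (itr one Rf) β) →
    POk (CP (itr one Rf) γ) (cle (itr one Rf) γ) (Rf γ (itr one Rf)) one
  sm : ∀ γ < ⊤, (∀ β < γ, OkAt one Rf (itr one Rf) β) → #(CP (itr one Rf) γ) < #K →
    #{z : Z | ∃ g ∈ CP (itr one Rf) γ, Rf γ (itr one Rf) g z z} < #K

end

/-- `K` has order type `κ + 1`, `κ` inaccessible -/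
structure KH (K : Type u) [LinearOrder K] [OrderTop K] : Prop where
  unc : ℵ₀ < #K
  reg : (#K).IsRegular
  lim : (#K).IsStrongLimit
  ini : ∀ b : K, b < ⊤ → #(Set.Iio b) < #K

/-! ## The interface: one carrier, an order for every level -/

section
variable {K Z : Type u} [LinearOrder K] [OrderBot K] [OrderTop K]

/-- the conditions of the iteration -/
def Cn (st : K → St K Z) : Type u := ↥(CP st ⊤)

/-- the order of the level `a` on the conditions -/
def Lv (st : K → St K Z) (a : K) (q p : Cn st) : Prop := cle st a q.1 p.1

/-- `At st γ p z` : the condition `p` decides its coordinate `γ` to be `z` -/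
def At (st : K → St K Z) (γ : K) (p : Cn st) (z : Z) : Prop := (st γ).dec (p.1 γ) (rs γ p.1) z

end

/-- the abstract interface -/
structure Itn {J P : Type u} [LinearOrder J] (L : J → P → P → Prop) : Prop where
  refl : ∀ a p, L a p p
  trans : ∀ a p q r, L a p q → L a q r → L a p r
  mono : ∀ a b p q, a ≤ b → L b q p → L a q p
  amal : ∀ a b p q, a ≤ b → L a q p → ∃ r, L b r p ∧ L a r q ∧ L a q r

/-- codes of levels, conditions and sets of conditions in a type `O` of objects -/
structure Cod (J P O : Type u) where
  j : J → O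
  p : P → O
  d : Set P → O
  hj : Function.Injective j
  hp : Function.Injective p
  hd : Function.Injective d

/-- `q` is `(M, P_a)`-generic -/
def Gn {J P O : Type u} (L : J → P → P → Prop) (c : Cod J P O) (M : Set O) (a : J) (q : P) : Prop :=
  ∀ D : Set P, c.d D ∈ M → (∀ p, ∃ d ∈ D, L a d p) →
    ∀ r, L a r q → ∃ d ∈ D, c.p d ∈ M ∧ ∃ s, L a s r ∧ L a s d

end Pool.Agent.CSI
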