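import Pool.Agent.Lib.CSI.Defs

/-! # The recursion equation, restriction, the orders of the levels -/

set_option autoImplicit false
set_option linter.unusedVariables false
set_option linter.unusedSectionVars false
set_option linter.deprecated false
universe u

namespace Pool.Agent.CSI

open Cardinal Set

section
variable {K Z : Type u} [LinearOrder K] [OrderBot K]

theorem rs_of_lt {α γ : K} (p : Raw K) (h : γ < α) : rs α p γ = p γ := by simp [rs, h]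

theorem rs_of_le {α γ : K} (p : Raw K) (h : α ≤ γ) : rs α p γ = ⊥ := by simp [rs, not_lt.2 h]

omit [OrderBot K] in
theorem gl_of_lt {α γ : K} (g p : Raw K) (h : γ < α) : gl α g p γ = g γ := by simp [gl, h]

omit [OrderBot K] in
theorem gl_of_le {α γ : K} (g p : Raw K) (h : α ≤ γ) : gl α g p γ = p γ := by simp [gl, not_lt.2 h]

theorem rs_rs_of_le {α β : K} (p : Raw K) (h : α ≤ β) : rs α (rs β p) = rs α p := by
  funext γ
  by_cases h1 : γ < α
  · rw [rs_of_lt _ h1, rs_of_lt _ h1, rs_of_lt _ (h1.trans_le h)]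
  · rw [rs_of_le _ (not_lt.1 h1), rs_of_le _ (not_lt.1 h1)]

theorem rs_congr {α : K} {p q : Raw K} (h : ∀ γ < α, p γ = q γ) : rs α p = rs α q := by
  funext γ
  by_cases h1 : γ < α
  · rw [rs_of_lt _ h1, rs_of_lt _ h1, h γ h1]
  · rw [rs_of_le _ (not_lt.1 h1), rs_of_le _ (not_lt.1 h1)]

theorem rs_gl_of_le {α γ : K} (g p : Raw K) (h : γ ≤ α) : rs γ (gl α g p) = rs γ g :=
  rs_congr fun i hi => gl_of_lt _ _ (hi.trans_le h)

theorem rs_gl_of_ge {α γ : K} (g p : Raw K) (h : α ≤ γ) : rs γ (gl α g p) = gl α (rs γ g) (rs γ p) := by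
  funext i
  by_cases h1 : i < γ
  · rw [rs_of_lt _ h1]
    by_cases h2 : i < α
    · rw [gl_of_lt _ _ h2, gl_of_lt _ _ h2, rs_of_lt _ h1]
    · rw [gl_of_le _ _ (not_lt.1 h2), gl_of_le _ _ (not_lt.1 h2), rs_of_lt _ h1]
  · have h3 := not_lt.1 h1
    rw [rs_of_le _ h3, gl_of_le _ _ (h.trans h3), rs_of_le _ h3]

theorem rs_self {st : K → St K Z} {α : K} {p : Raw K} (hp : p ∈ CP st α) : rs α p = p := by
  funext γ
  by_cases h1 : γ < α
  · rw [rs_of_lt _ h1]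
  · rw [rs_of_le _ (not_lt.1 h1), hp.2.2 γ (not_lt.1 h1)]

theorem CP_congr {st st' : K → St K Z} {α : K} (h : ∀ β < α, st β = st' β) : CP st α = CP st' α := by
  ext p
  simp only [CP, Set.mem_setOf_eq]
  constructor
  · rintro ⟨h1, h2, h3⟩
    exact ⟨h1, fun γ hγ => by rw [← h γ hγ]; exact h2 γ hγ, h3⟩
  · rintro ⟨h1, h2, h3⟩
    exact ⟨h1, fun γ hγ => by rw [h γ hγ]; exact h2 γ hγ, h3⟩

theorem cle_congr {st st' : K → St K Z} {α : K} (h : ∀ β < α, st β = st' β) : cle st α = cle st' α := by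
  funext p q
  simp only [cle, eq_iff_iff]
  constructor
  · intro h1 γ hγ
    rw [← h γ hγ]; exact h1 γ hγ
  · intro h1 γ hγ
    rw [h γ hγ]; exact h1 γ hγ

theorem rs_mem {st : K → St K Z} {α β : K} {p : Raw K} (hp : p ∈ CP st β) (h : α ≤ β) : rs α p ∈ CP st α := by
  refine ⟨hp.1.mono ?_, fun γ hγ => ?_, fun γ hγ => rs_of_le _ hγ⟩
  · intro γ hγ
    simp only [Set.mem_setOf_eq] at hγ ⊢
    by_cases h1 : γ < α
    · rwa [rs_of_lt _ h1] at hγ
    · exact absurd (rs_of_le _ (not_lt.1 h1)) hγ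
  · rw [rs_of_lt _ hγ]; exact hp.2.1 γ (hγ.trans_le h)

theorem gl_mem {st : K → St K Z} {α β : K} {g p : Raw K} (hg : g ∈ CP st β) (hp : p ∈ CP st β) :
    gl α g p ∈ CP st β := by
  refine ⟨(hg.1.union hp.1).mono ?_, fun γ hγ => ?_, fun γ hγ => ?_⟩
  · intro γ hγ
    simp only [Set.mem_setOf_eq, Set.mem_union] at hγ ⊢
    by_cases h1 : γ < α
    · rw [gl_of_lt _ _ h1] at hγ; exact Or.inl hγ
    · rw [gl_of_le _ _ (not_lt.1 h1)] at hγ; exact Or.inr hγ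
  · by_cases h1 : γ < α
    · rw [gl_of_lt _ _ h1]; exact hg.2.1 γ hγ
    · rw [gl_of_le _ _ (not_lt.1 h1)]; exact hp.2.1 γ hγ
  · by_cases h1 : γ < α
    · rw [gl_of_lt _ _ h1]; exact hg.2.2 γ hγ
    · rw [gl_of_le _ _ (not_lt.1 h1)]; exact hp.2.2 γ hγ

theorem cle_mono {st : K → St K Z} {α β : K} {p q : Raw K} (h : α ≤ β) (hp : cle st β p q) : cle st α p q :=
  fun γ hγ => hp γ (hγ.trans_le h)

/-- the order of the level `α` only depends on the coordinates below `α` -/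
theorem cle_congr' {st : K → St K Z} {α : K} {p q p' q' : Raw K} (hp : ∀ γ < α, p γ = p' γ)
    (hq : ∀ γ < α, q γ = q' γ) : cle st α p q ↔ cle st α p' q' := by
  have key : ∀ γ < α, ((st γ).Rc (rs γ p) (p γ) (q γ) ↔ (st γ).Rc (rs γ p') (p' γ) (q' γ)) := by
    intro γ hγ
    rw [hp γ hγ, hq γ hγ, rs_congr (fun i hi => hp i (hi.trans hγ))]
  exact ⟨fun h γ hγ => (key γ hγ).1 (h γ hγ), fun h γ hγ => (key γ hγ).2 (h γ hγ)⟩

theorem cle_rs_left {st : K → St K Z} {α β : K} (h : α ≤ β) (p q : Raw K) :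
    cle st α (rs β p) q ↔ cle st α p q :=
  cle_congr' (fun _ hγ => rs_of_lt _ (hγ.trans_le h)) (fun _ _ => rfl)

theorem cle_rs_right {st : K → St K Z} {α β : K} (h : α ≤ β) (p q : Raw K) :
    cle st α p (rs β q) ↔ cle st α p q :=
  cle_congr' (fun _ _ => rfl) (fun _ hγ => rs_of_lt _ (hγ.trans_le h))

variable [OrderTop K] [WellFoundedLT K]

theorem itr_eq {one : Z} {Rf : K → (K → St K Z) → Raw K → Z → Z → Prop} (hl : Loc Rf) (γ : K) :
    itr one Rf γ = mkSt one Rf γ (itr one Rf) := by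
  have h0 : itr one Rf γ = mkSt one Rf γ (fun β => if h : β < γ then itr one Rf β
      else ⟨∅, fun _ _ _ => False, fun _ _ _ => False⟩) := by
    unfold itr
    rw [WellFounded.fix_eq]
  have h1 : ∀ β < γ, (fun β => if h : β < γ then itr one Rf β
      else ⟨∅, fun _ _ _ => False, fun _ _ _ => False⟩) β = itr one Rf β := by
    intro β hβ
    simp [hβ]
  rw [h0]
  unfold mkSt
  rw [CP_congr h1, cle_congr h1, hl γ _ _ h1]

end

section
variable {K Z : Type u} [LinearOrder K] [OrderBot K] [OrderTop K] [WellFoundedLT K]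
variable {one : Z} {Rf : K → (K → St K Z) → Raw K → Z → Z → Prop} {st : K → St K Z}

theorem bot_mem_Cd {γ : K} (h : OkAt one Rf st γ) : ⊥ ∈ (st γ).Cd := h.cdg.bot

theorem CP_mono {α β : K} (hok : ∀ γ < β, OkAt one Rf st γ) (h : α ≤ β) : CP st α ⊆ CP st β := by
  intro p hp
  refine ⟨hp.1, fun γ hγ => ?_, fun γ hγ => hp.2.2 γ (h.trans hγ)⟩
  by_cases h1 : γ < α
  · exact hp.2.1 γ h1
  · rw [hp.2.2 γ (not_lt.1 h1)]; exact bot_mem_Cd (hok γ hγ)

/-- the order on the coordinates is reflexive -/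
theorem Rc_refl {γ : K} (h : OkAt one Rf st γ) {g : Raw K} (hg : g ∈ CP st γ) {c : K} (hc : c ∈ (st γ).Cd) :
    (st γ).Rc g c c := by
  rw [h.rc]
  refine ⟨hg, fun h1 hh1 hle => ?_⟩
  obtain ⟨k, hk, hk1, z, hz⟩ := (h.cdg.nm c hc).dns h1 hh1
  exact ⟨k, hk, hk1, z, z, hz, hz, ((h.cdg.nm c hc).val k z hz).2⟩

/-- the order of the coordinates is open -/
theorem Rc_mono {γ : K} (h : OkAt one Rf st γ) {g g' : Raw K} (hg : g ∈ CP st γ) (hg' : g' ∈ CP st γ)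
    (hle : cle st γ g' g) {c c' : K}
    (ht : ∀ p q r, p ∈ CP st γ → q ∈ CP st γ → r ∈ CP st γ → cle st γ p q → cle st γ q r → cle st γ p r)
    (hR : (st γ).Rc g c c') : (st γ).Rc g' c c' := by
  rw [h.rc] at hR ⊢
  exact ⟨hg', fun k hk hkg => hR.2 k hk (ht _ _ _ hk hg' hg hkg hle)⟩

theorem cle_refl_trans {α : K} (hok : ∀ γ < α, OkAt one Rf st γ) :
    (∀ p, (∀ γ < α, p γ ∈ (st γ).Cd) → (∀ γ < α, rs γ p ∈ CP st γ) → cle st α p p) ∧
    (∀ p q r, (∀ γ < α, p γ ∈ (st γ).Cd) → (∀ γ < α, q γ ∈ (st γ).Cd) → (∀ γ < α, r γ ∈ (st γ).Cd) →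
      (∀ γ < α, rs γ p ∈ CP st γ) → (∀ γ < α, rs γ q ∈ CP st γ) → (∀ γ < α, rs γ r ∈ CP st γ) →
      cle st α p q → cle st α q r → cle st α p r) := by
  induction α using WellFoundedLT.induction with
  | ind α ih =>
    have htr : ∀ γ < α, ∀ p q r, p ∈ CP st γ → q ∈ CP st γ → r ∈ CP st γ → cle st γ p q → cle st γ q r →
        cle st γ p r := by
      intro γ hγ p q r hp hq hr
      exact (ih γ hγ (fun i hi => hok i (hi.trans hγ))).2 p q r hp.2.1 hq.2.1 hr.2.1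
        (fun i hi => rs_mem hp hi.le) (fun i hi => rs_mem hq hi.le) (fun i hi => rs_mem hr hi.le)
    refine ⟨fun p hp hp' γ hγ => Rc_refl (hok γ hγ) (hp' γ hγ) (hp γ hγ), ?_⟩
    intro p q r hp hq hr hp' hq' hr' h1 h2 γ hγ
    have hR1 := h1 γ hγ
    have hR2 := h2 γ hγ
    have hok' := hok γ hγ
    rw [hok'.rc] at hR1 hR2 ⊢
    refine ⟨hp' γ hγ, fun h hh hle => ?_⟩
    obtain ⟨k1, hk1, hk1h, z1, z2, hz1, hz2, hz⟩ := hR1.2 h hh hle
    have hpq : cle st γ (rs γ p) (rs γ q) := by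
      rw [cle_rs_left le_rfl, cle_rs_right le_rfl]
      exact cle_mono hγ.le h1
    have hk1p : cle st γ k1 (rs γ p) := htr γ hγ _ _ _ hk1 hh (hp' γ hγ) hk1h hle
    have hk1q : cle st γ k1 (rs γ q) := htr γ hγ _ _ _ hk1 (hp' γ hγ) (hq' γ hγ) hk1p hpq
    obtain ⟨k2, hk2, hk21, z2', z3, hz2', hz3, hz'⟩ := hR2.2 k1 hk1 hk1q
    have hN1 := hok'.cdg.nm _ (hp γ hγ)
    have hN2 := hok'.cdg.nm _ (hq γ hγ)
    have e : z2' = z2 := hN2.fnc k2 _ _ hz2' (hN2.opn k1 k2 z2 hz2 hk2 hk21)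
    subst e
    exact ⟨k2, hk2, htr γ hγ _ _ _ hk2 hk1 hh hk21 hk1h, z1, z3, hN1.opn k1 k2 z1 hz1 hk2 hk21, hz3,
      hok'.pok.trans k2 hk2 _ _ _ (hok'.pok.mono k1 hk1 k2 hk2 hk21 _ _ hz) hz'⟩

theorem cle_refl {α β : K} (hok : ∀ γ < α, OkAt one Rf st γ) (h : α ≤ β) {p : Raw K} (hp : p ∈ CP st β) :
    cle st α p p :=
  (cle_refl_trans hok).1 p (fun γ hγ => hp.2.1 γ (hγ.trans_le h))
    (fun _ hγ => rs_mem hp (hγ.le.trans h))

theorem cle_trans {α β : K} (hok : ∀ γ < α, OkAt one Rf st γ) (h : α ≤ β) {p q r : Raw K}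
    (hp : p ∈ CP st β) (hq : q ∈ CP st β) (hr : r ∈ CP st β) (h1 : cle st α p q) (h2 : cle st α q r) :
    cle st α p r :=
  (cle_refl_trans hok).2 p q r (fun γ hγ => hp.2.1 γ (hγ.trans_le h)) (fun γ hγ => hq.2.1 γ (hγ.trans_le h))
    (fun γ hγ => hr.2.1 γ (hγ.trans_le h)) (fun _ hγ => rs_mem hp (hγ.le.trans h))
    (fun _ hγ => rs_mem hq (hγ.le.trans h)) (fun _ hγ => rs_mem hr (hγ.le.trans h)) h1 h2

/-- gluing: `gl α g p` is stronger than `p` when `g` is stronger than `p` at the level `α` -/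
theorem gl_cle_right {α β : K} (hok : ∀ γ < β, OkAt one Rf st γ) {g p : Raw K} (hg : g ∈ CP st β)
    (hp : p ∈ CP st β) (h : cle st α g p) : cle st β (gl α g p) p := by
  intro γ hγ
  have hm := gl_mem (α := α) hg hp
  by_cases h1 : γ < α
  · rw [gl_of_lt _ _ h1, rs_gl_of_le _ _ h1.le]
    exact h γ h1
  · have h2 := not_lt.1 h1
    rw [gl_of_le _ _ h2]
    exact Rc_refl (hok γ hγ) (rs_mem hm hγ.le) (hp.2.1 γ hγ)

theorem gl_cle_left {α β : K} (hok : ∀ γ < α, OkAt one Rf st γ) (h : α ≤ β) {g p : Raw K} (hg : g ∈ CP st β) :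
    cle st α (gl α g p) g ∧ cle st α g (gl α g p) := by
  have h1 : ∀ γ < α, gl α g p γ = g γ := fun γ hγ => gl_of_lt _ _ hγ
  exact ⟨(cle_congr' h1 (fun _ _ => rfl)).2 (cle_refl hok h hg),
    (cle_congr' (fun _ _ => rfl) h1).2 (cle_refl hok h hg)⟩

/-- monotonicity of gluing -/
theorem gl_cle_gl {α β : K} (hok : ∀ γ < β, OkAt one Rf st γ) {g g' p p' : Raw K}
    (hg : g ∈ CP st β) (hp : p ∈ CP st β) (hp' : p' ∈ CP st β) (hgg : cle st α g g') (hgp : cle st α g p)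
    (hpp : cle st β p p') : cle st β (gl α g p) (gl α g' p') := by
  intro γ hγ
  by_cases h1 : γ < α
  · rw [gl_of_lt _ _ h1, gl_of_lt _ _ h1, rs_gl_of_le _ _ h1.le]
    exact hgg γ h1
  · have h2 := not_lt.1 h1
    rw [gl_of_le _ _ h2, gl_of_le _ _ h2]
    refine Rc_mono (hok γ hγ) (rs_mem hp hγ.le) (rs_mem (gl_mem hg hp) hγ.le) ?_
      (fun _ _ _ h1 h2 h3 => cle_trans (fun i hi => hok i (hi.trans hγ)) le_rfl h1 h2 h3) (hpp γ hγ)
    rw [cle_rs_left le_rfl, cle_rs_right le_rfl]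
    exact cle_mono hγ.le (gl_cle_right hok hg hp hgp)

/-- the abstract interface -/
theorem itn (hok : ∀ γ < ⊤, OkAt one Rf st γ) : Itn (Lv st) where
  refl a p := cle_refl (fun γ hγ => hok γ (hγ.trans_le le_top)) le_top p.2
  trans a p q r h1 h2 := cle_trans (fun γ hγ => hok γ (hγ.trans_le le_top)) le_top p.2 q.2 r.2 h1 h2
  mono a b p q h1 h2 := cle_mono h1 h2
  amal a b p q h1 h2 := by
    refine ⟨⟨gl a q.1 p.1, gl_mem q.2 p.2⟩, ?_, ?_, ?_⟩
    · exact cle_mono le_top (gl_cle_right hok q.2 p.2 h2)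
    · exact (gl_cle_left (fun γ hγ => hok γ (hγ.trans_le le_top)) le_top q.2).1
    · exact (gl_cle_left (fun γ hγ => hok γ (hγ.trans_le le_top)) le_top q.2).2

end

end Pool.Agent.CSI
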